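import Pool.Agent.Helper50.FE.Goals

/-!
# Project FE, packet CNT: the counting theorem
-/

set_option autoImplicit false

open Finset Pool.Agent.Helper22.FSU

namespace Pool.Agent.Helper14.FE

open Pool.Agent.Helper50.FE

theorem near_mono {S : Finset ℕ} {C C' : ℝ} (h : C ≤ C') {n : ℕ} (hn : 1 ≤ n) {k : ℕ → ℕ}
    (hk : Near S C n k) : Near S C' n k := by
  unfold Near at hk ⊢
  refine hk.trans (Real.exp_le_exp.2 ?_)
  have h1 : (0 : ℝ) ≤ Real.log n := Real.log_nonneg (by exact_mod_cast hn)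
  have h2 : (0 : ℝ) ≤ (n : ℝ) := Nat.cast_nonneg n
  exact mul_le_mul_of_nonneg_right (mul_le_mul_of_nonneg_right h h2) h1

/-- The index of the window. -/
theorem idx {ε r R : ℝ} (hε : 0 < ε) (hr : 1 ≤ r) (hR : r ≤ R) :
    ∃ j : ℕ, j < ⌊Real.log R / Real.log (1 + ε)⌋₊ + 1 ∧ (1 + ε) ^ j ≤ r ∧ r < (1 + ε) ^ (j + 1) := by
  have hl : 0 < Real.log (1 + ε) := Real.log_pos (by linarith)
  have hr0 : 0 < r := by linarith
  have h1 : 0 ≤ Real.log r := Real.log_nonneg hr
  have hb : (0 : ℝ) < 1 + ε := by linarith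
  refine ⟨⌊Real.log r / Real.log (1 + ε)⌋₊, ?_, ?_, ?_⟩
  · refine Nat.lt_succ_of_le (Nat.floor_le_floor ?_)
    exact div_le_div_of_nonneg_right (Real.log_le_log hr0 hR) hl.le
  · have h2 := Nat.floor_le (div_nonneg h1 hl.le)
    rw [le_div_iff₀ hl] at h2
    rw [← Real.log_le_log_iff (pow_pos hb _) hr0, Real.log_pow]
    exact h2
  · have h2 := Nat.lt_floor_add_one (Real.log r / Real.log (1 + ε))
    rw [div_lt_iff₀ hl] at h2
    rw [← Real.log_lt_log_iff hr0 (pow_pos hb _), Real.log_pow]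
    push_cast
    exact h2

theorem goalCNT : Pool.Agent.Helper50.FE.CNT := by
  classical
  intro hWIN S hS C hC
  obtain ⟨K, x0, ε, hε, hW⟩ := hWIN S hS (min 1 (1 - C)) (lt_min one_pos (by linarith))
    (min_le_left _ _)
  have hCη : C ≤ 1 - min 1 (1 - C) := by
    have := min_le_right (1 : ℝ) (1 - C)
    linarith
  have hl : 0 < Real.log (1 + ε) := Real.log_pos (by linarith)
  refine ⟨x0 + 2 + K + K / Real.log (1 + ε), fun Y X hY hYX => ?_⟩
  have hY1 : (1 : ℝ) < Y := by exact_mod_cast (by omega : 1 < Y)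
  have hlY : 0 < Real.log Y := Real.log_pos hY1
  set L : ℝ := Real.log (Real.log X / Real.log Y) with hL
  have hXY : 1 ≤ Real.log X / Real.log Y := by
    rw [le_div_iff₀ hlY, one_mul]
    exact Real.log_le_log (by linarith) (by exact_mod_cast hYX)
  have hL0 : 0 ≤ L := Real.log_nonneg hXY
  set J : ℕ := ⌊L / Real.log (1 + ε)⌋₊ with hJ
  -- the parts
  let Ej : ℕ → Finset ℕ := fun j => (Icc Y X).filter fun n => x0 ≤ n ∧ (∃ k, Near S C n k) ∧
    (1 + ε) ^ j * Real.log Y ≤ Real.log n ∧ Real.log n < (1 + ε) ^ (j + 1) * Real.log Y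
  have hEj : ∀ j, (Ej j).card ≤ K := by
    intro j
    rcases (Ej j).eq_empty_or_nonempty with h0 | h0
    · rw [h0]
      exact Nat.zero_le _
    · have hmin := (Ej j).min'_mem h0
      have hm := (mem_filter.1 hmin).2
      refine hW ((Ej j).min' h0) hm.1 (Ej j) fun y hy => ?_
      have hy' := (mem_filter.1 hy).2
      have hyY : Y ≤ y := (mem_Icc.1 (mem_filter.1 hy).1).1
      refine ⟨(Ej j).min'_le y hy, ?_, ?_⟩
      · have h1 := hy'.2.2.2
        have h2 := hm.2.2.1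
        have h3 : (1 + ε) ^ (j + 1) * Real.log Y = (1 + ε) * ((1 + ε) ^ j * Real.log Y) := by ring
        rw [h3] at h1
        exact h1.le.trans (mul_le_mul_of_nonneg_left h2 (by linarith))
      · obtain ⟨k, hk⟩ := hy'.2.1
        exact ⟨k, near_mono hCη (by omega) hk⟩
  have hsub : {n : ℕ | Y ≤ n ∧ n ≤ X ∧ ∃ k, Near S C n k} ⊆
      ((range x0 ∪ (range (J + 1)).biUnion Ej : Finset ℕ) : Set ℕ) := by
    rintro n ⟨h1, h2, h3⟩
    rw [mem_coe, mem_union, mem_range, mem_biUnion]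
    by_cases hn : n < x0
    · exact Or.inl hn
    · right
      have hnY : Real.log Y ≤ Real.log n :=
        Real.log_le_log (by linarith) (by exact_mod_cast h1)
      have hnX : Real.log n ≤ Real.log X := by
        refine Real.log_le_log ?_ (by exact_mod_cast h2)
        have : (Y : ℝ) ≤ n := by exact_mod_cast h1
        linarith
      obtain ⟨j, hj1, hj2, hj3⟩ := idx (r := Real.log n / Real.log Y)
        (R := Real.log X / Real.log Y) hε (by rw [le_div_iff₀ hlY, one_mul]; exact hnY)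
        (div_le_div_of_nonneg_right hnX hlY.le)
      rw [le_div_iff₀ hlY] at hj2
      rw [div_lt_iff₀ hlY] at hj3
      exact ⟨j, mem_range.2 hj1, mem_filter.2 ⟨mem_Icc.2 ⟨h1, h2⟩, not_lt.1 hn, h3, hj2, hj3⟩⟩
  have hcard : {n : ℕ | Y ≤ n ∧ n ≤ X ∧ ∃ k, Near S C n k}.ncard ≤ x0 + (J + 1) * K := by
    refine (Set.ncard_le_ncard hsub (Finset.finite_toSet _)).trans ?_
    rw [Set.ncard_coe_finset]
    refine (card_union_le _ _).trans ?_
    rw [card_range]
    refine Nat.add_le_add_left ?_ _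
    refine card_biUnion_le.trans ?_
    refine (sum_le_sum fun j _ => hEj j).trans ?_
    rw [sum_const, card_range, smul_eq_mul]
  have hJL : (J : ℝ) ≤ L / Real.log (1 + ε) := Nat.floor_le (div_nonneg hL0 hl.le)
  have hcR : (({n : ℕ | Y ≤ n ∧ n ≤ X ∧ ∃ k, Near S C n k}.ncard : ℕ) : ℝ) ≤
      x0 + (J + 1) * K := by exact_mod_cast hcard
  refine hcR.trans ?_
  have hK0 : (0 : ℝ) ≤ K := Nat.cast_nonneg K
  have hx0 : (0 : ℝ) ≤ x0 := Nat.cast_nonneg x0
  have h1 : ((J : ℝ) + 1) * K ≤ K + K / Real.log (1 + ε) * L := by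
    have h2 : (J : ℝ) * K ≤ L / Real.log (1 + ε) * K := mul_le_mul_of_nonneg_right hJL hK0
    have h3 : L / Real.log (1 + ε) * K = K / Real.log (1 + ε) * L := by ring
    linarith
  have h4 : 0 ≤ (K : ℝ) / Real.log (1 + ε) := div_nonneg hK0 hl.le
  have h5 : 0 ≤ ((x0 : ℝ) + 2 + K) * L := mul_nonneg (by linarith) hL0
  have h6 : ((x0 : ℝ) + 2 + K + K / Real.log (1 + ε)) * (1 + L) =
      x0 + (K + K / Real.log (1 + ε) * L) + (2 + K / Real.log (1 + ε) + (x0 + 2 + K) * L) := by ring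
  rw [h6]
  linarith

end Pool.Agent.Helper14.FE
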